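import Mathlib

/-!
# The twisted recurrence for the pairs `(α, -α)`
-/

namespace Pool.Agent.Results.MP_0ef687_an.OppositeFrequencies

open Filter Topology

/-- `e(t) = exp(2πit)` -/
noncomputable def e (t : ℝ) : ℂ := Complex.exp (2 * Real.pi * t * Complex.I)

/-- the functional equation along the orbit `x₀ + ℤ` -/
def Holds (α β x0 : ℝ) (f : ℝ → ℂ) : Prop :=
  ∀ N : ℤ, f (x0 + N + 1) * (1 + e (α * (x0 + N))) = f (x0 + N) * (1 + e (β * (x0 + N)))

theorem norm_e (t : ℝ) : ‖1 + e (-t)‖ = ‖1 + e t‖ := by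
  have : 1 + e (-t) = (starRingEnd ℂ) (1 + e t) := by
    unfold e
    rw [map_add, map_one, ← Complex.exp_conj]
    congr 2
    simp
    exact Or.inl (map_ofNat (starRingEnd ℂ) 2).symm
  rw [this, Complex.norm_conj]

theorem e_add (s t : ℝ) : e (s + t) = e s * e t := by
  unfold e
  rw [← Complex.exp_add]
  congr 1
  push_cast
  ring

theorem unique_zero (α x0 : ℝ) (hα : Irrational α) (N M : ℤ)
    (hN : 1 + e (α * (x0 + N)) = 0) (hM : 1 + e (α * (x0 + M)) = 0) : N = M := by
  by_contra hne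
  have h1 : e (α * (x0 + N)) = e (α * (x0 + M)) := by
    have := hN.trans hM.symm
    exact add_left_cancel this
  have h2 : e (α * ((N : ℝ) - M)) = 1 := by
    have h3 : α * (x0 + N) = α * ((N : ℝ) - M) + α * (x0 + M) := by ring
    rw [h3, e_add] at h1
    have h4 : e (α * (x0 + M)) ≠ 0 := Complex.exp_ne_zero _
    have h5 : e (α * ((N : ℝ) - M)) * e (α * (x0 + M)) = 1 * e (α * (x0 + M)) := by
      rw [h1, one_mul]
    exact mul_right_cancel₀ h4 h5
  unfold e at h2
  rw [Complex.exp_eq_one_iff] at h2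
  obtain ⟨n, hn⟩ := h2
  have hpi : (2 * Real.pi * Complex.I : ℂ) ≠ 0 := Complex.two_pi_I_ne_zero
  have h6 : ((α * ((N : ℝ) - M) : ℝ) : ℂ) = (n : ℂ) := by
    have : (2 * Real.pi * Complex.I : ℂ) * ((α * ((N : ℝ) - M) : ℝ) : ℂ) =
        (2 * Real.pi * Complex.I) * (n : ℂ) := by
      linear_combination hn
    exact mul_left_cancel₀ hpi this
  have h7 : α * ((N - M : ℤ) : ℝ) = (n : ℤ) := by
    push_cast
    exact_mod_cast h6
  have hNM : N - M ≠ 0 := sub_ne_zero.2 hne
  apply (hα.mul_intCast hNM)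
  exact ⟨(n : ℚ), by rw [h7]; simp⟩

theorem step {α x0 : ℝ} {f : ℝ → ℂ} (h : Holds α (-α) x0 f) (N : ℤ)
    (hN : 1 + e (α * (x0 + N)) ≠ 0) : ‖f (x0 + ((N + 1 : ℤ) : ℝ))‖ = ‖f (x0 + N)‖ := by
  have h1 := congrArg norm (h N)
  rw [norm_mul, norm_mul, neg_mul, norm_e] at h1
  have h2 : ‖1 + e (α * (x0 + N))‖ ≠ 0 := norm_ne_zero_iff.2 hN
  have h3 := mul_right_cancel₀ h2 h1
  rw [← h3]
  congr 2
  push_cast
  ring

/-- For `β = -α` every solution along an orbit that tends to `0` vanishes on the orbit. -/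
theorem result (α : ℝ) (hα : Irrational α) (x0 : ℝ) (f : ℝ → ℂ) (h : Holds α (-α) x0 f)
    (hlim : Tendsto (fun N : ℤ => f (x0 + N)) cofinite (𝓝 0)) : ∀ N : ℤ, f (x0 + N) = 0 := by
  have hlim' : Tendsto (fun N : ℤ => ‖f (x0 + N)‖) cofinite (𝓝 0) := by
    simpa using hlim.norm
  have up : ∀ M : ℤ, (∀ N, M ≤ N → 1 + e (α * (x0 + N)) ≠ 0) → ‖f (x0 + M)‖ = 0 := by
    intro M hM
    have hc : ∀ k : ℕ, ‖f (x0 + ((M + k : ℤ) : ℝ))‖ = ‖f (x0 + M)‖ := by
      intro k
      induction k with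
      | zero => simp
      | succ k ih =>
        have h1 := step h (M + k) (hM _ (by omega))
        rw [← ih, ← h1]
        congr 3
        push_cast
        ring
    have hinj : Function.Injective fun k : ℕ => (M + k : ℤ) := by
      intro a b hab
      simpa using hab
    have h2 := hlim'.comp hinj.tendsto_cofinite
    have h3 : Tendsto (fun _ : ℕ => ‖f (x0 + M)‖) cofinite (𝓝 0) :=
      h2.congr fun k => hc k
    exact tendsto_nhds_unique tendsto_const_nhds h3
  have down : ∀ M : ℤ, (∀ N, N < M → 1 + e (α * (x0 + N)) ≠ 0) → ‖f (x0 + M)‖ = 0 := by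
    intro M hM
    have hc : ∀ k : ℕ, ‖f (x0 + ((M - k : ℤ) : ℝ))‖ = ‖f (x0 + M)‖ := by
      intro k
      induction k with
      | zero => simp
      | succ k ih =>
        have h1 := step h (M - (k + 1)) (by exact_mod_cast hM (M - (k + 1)) (by omega))
        rw [← ih]
        have h2 : M - ((k + 1 : ℕ) : ℤ) = M - (k + 1) := by push_cast; ring
        have h3 : M - (k : ℤ) = M - (k + 1) + 1 := by ring
        rw [h2, h3, h1]
    have hinj : Function.Injective fun k : ℕ => (M - k : ℤ) := by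
      intro a b hab
      simpa using hab
    have h2 := hlim'.comp hinj.tendsto_cofinite
    have h3 : Tendsto (fun _ : ℕ => ‖f (x0 + M)‖) cofinite (𝓝 0) :=
      h2.congr fun k => hc k
    exact tendsto_nhds_unique tendsto_const_nhds h3
  intro M
  rw [← norm_eq_zero]
  by_cases hM : ∀ N, M ≤ N → 1 + e (α * (x0 + N)) ≠ 0
  · exact up M hM
  · push Not at hM
    obtain ⟨N1, hN1, h0⟩ := hM
    apply down M
    intro N hN h1
    have := unique_zero α x0 hα N N1 h1 h0
    omega

end Pool.Agent.Results.MP_0ef687_an.OppositeFrequencies
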